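import Pool.Agent.Helper17.TH.GoalsII
import Pool.Agent.Helper51.SigLeo.Core

/-!
# Project TH, packet S_INF
-/

set_option autoImplicit false

namespace Pool.Agent.Helper16.TH

open NumberField Module TensorProduct
open Pool.Agent.Helper51.SigLeo Pool.Agent.Helper51.RP Pool.Agent.Helper42.RD
open Pool.Agent.Helper17.TH
open Pool.Agent.Helper38.FD (Chr CutsOut LeopoldtFor LeopoldtOn Restricts)

section lin

variable {k A B C : Type} [Field k] [AddCommGroup A] [AddCommGroup B] [AddCommGroup C]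

/-- The base change of a homomorphism. -/
noncomputable def bm (k : Type) [Field k] {A B : Type} [AddCommGroup A] [AddCommGroup B]
    (f : A →+ B) : (k ⊗[ℤ] A) →ₗ[k] (k ⊗[ℤ] B) :=
  f.toIntLinearMap.baseChange k

lemma bm_tmul (f : A →+ B) (c : k) (a : A) : bm k f (c ⊗ₜ a) = c ⊗ₜ f a := by
  simp [bm]

lemma bm_comp (f : B →+ C) (g : A →+ B) (x : k ⊗[ℤ] A) :
    bm k f (bm k g x) = bm k (f.comp g) x := by
  induction x using TensorProduct.induction_on with
  | zero => simp
  | tmul c m => simp [bm_tmul]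
  | add x y hx hy => rw [map_add, map_add, map_add, hx, hy]

lemma extEnd_bm (f : B →+ B) (g : A →+ B) (x : k ⊗[ℤ] A) :
    extEnd f (bm k g x) = bm k (f.comp g) x := bm_comp f g x

lemma bm_extEnd (f : A →+ B) (g : A →+ A) (x : k ⊗[ℤ] A) :
    bm k f (extEnd g x) = bm k (f.comp g) x := bm_comp f g x

lemma extHom_bm (f : A →+ B) (l : B →+ k) (x : k ⊗[ℤ] A) :
    extHom l (bm k f x) = extHom (l.comp f) x := by
  induction x using TensorProduct.induction_on with
  | zero => simp
  | tmul c m => simp [bm_tmul]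
  | add x y hx hy => rw [map_add, map_add, map_add, hx, hy]

lemma bm_nsmul (d : ℕ) (x : k ⊗[ℤ] A) (f : A →+ A) (hf : ∀ a, f a = d • a) :
    bm k f x = (d : k) • x := by
  induction x using TensorProduct.induction_on with
  | zero => simp
  | tmul c m =>
    rw [bm_tmul, hf, TensorProduct.tmul_smul, Nat.cast_smul_eq_nsmul]
  | add x y hx hy => rw [map_add, hx, hy, smul_add]

lemma bm_sum {ι : Type} [Fintype ι] (f : ι → A →+ B) (F : A →+ B) (hF : ∀ a, F a = ∑ i, f i a)
    (x : k ⊗[ℤ] A) : bm k F x = ∑ i, bm k (f i) x := by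
  induction x using TensorProduct.induction_on with
  | zero => simp
  | tmul c m =>
    simp only [bm_tmul]
    rw [hF, TensorProduct.tmul_sum]
  | add x y hx hy => simp only [map_add]; rw [hx, hy, Finset.sum_add_distrib]

variable {G M : Type} [Group G] [Finite G] [AddCommGroup M]

lemma eChi_of_eig (hn : (Nat.card G : k) ≠ 0) (χ : G →* kˣ) (a : G → M →+ M) (x : k ⊗[ℤ] M)
    (h : ∀ g, extEnd (a g) x = ((χ g : kˣ) : k) • x) : eChi (Nat.card G) χ a x = x := by
  have := Fintype.ofFinite G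
  unfold eChi
  rw [finsum_eq_sum_of_fintype]
  have h1 : ∀ g : G, ((χ g⁻¹ : kˣ) : k) • extEnd (a g) x = x := by
    intro g
    rw [h g, smul_smul, ← Units.val_mul, ← map_mul, inv_mul_cancel, map_one, Units.val_one,
      one_smul]
  rw [Finset.sum_congr rfl fun g _ => h1 g, Finset.sum_const, Finset.card_univ,
    ← Nat.card_eq_fintype_card, ← Nat.cast_smul_eq_nsmul k, smul_smul, inv_mul_cancel₀ hn, one_smul]

lemma eChi_eig (n : ℕ) (χ : G →* kˣ) (a : G → M →+ M)
    (ha : ∀ g h, a (g * h) = (a g).comp (a h)) (x : k ⊗[ℤ] M) (h : G) :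
    extEnd (a h) (eChi n χ a x) = ((χ h : kˣ) : k) • eChi n χ a x := by
  have := Fintype.ofFinite G
  have hmain : extEnd (a h) (∑ g, ((χ g⁻¹ : kˣ) : k) • extEnd (a g) x) =
      ((χ h : kˣ) : k) • ∑ g, ((χ g⁻¹ : kˣ) : k) • extEnd (a g) x := by
    rw [map_sum, Finset.smul_sum, ← Equiv.sum_comp (Equiv.mulLeft h)
      (fun g => ((χ h : kˣ) : k) • ((χ g⁻¹ : kˣ) : k) • extEnd (a g) x)]
    refine Finset.sum_congr rfl fun g _ => ?_
    rw [map_smul, Equiv.coe_mulLeft, ha, extEnd_comp, smul_smul, ← Units.val_mul]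
    congr 2
    rw [mul_inv_rev, map_mul, map_inv, map_inv, mul_comm (χ g)⁻¹ _, mul_inv_cancel_left]
  unfold eChi
  rw [finsum_eq_sum_of_fintype, map_smul, hmain, smul_comm]

end lin

section fields

/-- Extension of embeddings in an algebraically closed field. -/
lemma ext_emb {H F Ω : Type} [Field H] [Field F] [Field Ω] [Algebra H F]
    [Algebra.IsAlgebraic H F] [IsAlgClosed Ω] (σ : H →+* Ω) :
    ∃ σ' : F →+* Ω, σ'.comp (algebraMap H F) = σ := by
  let _ := σ.toAlgebra
  let σ' : F →ₐ[H] Ω := IsAlgClosed.lift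
  exact ⟨σ', σ'.comp_algebraMap⟩

/-- An embedding of an algebraic extension which extends one with values in `ι(Ω)`. -/
lemma lift_emb {K H Ω k : Type} [Field K] [Field H] [Field Ω] [Field k] [Algebra K H]
    [Algebra.IsAlgebraic K H] [IsAlgClosed Ω] (ιp : Ω →+* k) (σ₀ : K →+* Ω) (τ : H →+* k)
    (h : τ.comp (algebraMap K H) = ιp.comp σ₀) : ∃ σ : H →+* Ω, ιp.comp σ = τ := by
  have hr : ∀ x : H, ∃ w : Ω, ιp w = τ x := by
    intro x
    have hint : IsIntegral K x := Algebra.IsIntegral.isIntegral x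
    set P := minpoly K x with hP
    have hP0 : P ≠ 0 := minpoly.ne_zero hint
    have hroot : (P.map (ιp.comp σ₀)).eval (τ x) = 0 := by
      rw [← h, Polynomial.eval_map, ← Polynomial.hom_eval₂, ← Polynomial.aeval_def, minpoly.aeval,
        map_zero]
    rw [← Polynomial.map_map] at hroot
    have hs : (P.map σ₀).Splits := IsAlgClosed.splits _
    have hne : (P.map σ₀).map ιp ≠ 0 := by
      rw [Polynomial.map_map]
      exact Polynomial.map_ne_zero hP0
    have hmem : τ x ∈ ((P.map σ₀).map ιp).roots := by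
      rw [Polynomial.mem_roots hne]
      exact hroot
    rw [hs.roots_map] at hmem
    obtain ⟨w, _, hw⟩ := Multiset.mem_map.1 hmem
    exact ⟨w, hw⟩
  choose s hs using hr
  refine ⟨{ toFun := s, map_one' := ?_, map_mul' := ?_, map_zero' := ?_, map_add' := ?_ }, ?_⟩
  · apply ιp.injective; rw [hs, map_one, map_one]
  · intro x y; apply ιp.injective; rw [hs, map_mul, map_mul, hs, hs]
  · apply ιp.injective; rw [hs, map_zero, map_zero]
  · intro x y; apply ιp.injective; rw [hs, map_add, map_add, hs, hs]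
  · ext x
    exact hs x

variable {K H F Ω : Type} [Field K] [Field H] [Field F] [Field Ω] [Algebra K H] [Algebra K F]
  [Algebra K Ω] [Algebra H F] [Algebra H Ω] [Algebra F Ω] [IsScalarTower K H F]
  [IsScalarTower K H Ω] [IsScalarTower K F Ω] [IsScalarTower H F Ω]

/-- The inclusion of the units. -/
noncomputable def iU (H F : Type) [Field H] [Field F] [Algebra H F] :
    Additive (𝓞 H)ˣ →+ Additive (𝓞 F)ˣ :=
  MonoidHom.toAdditive (Units.map (algebraMap (𝓞 H) (𝓞 F) : 𝓞 H →* 𝓞 F))

/-- The norm on the units. -/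
noncomputable def nU (H F : Type) [Field H] [Field F] [Algebra H F] :
    Additive (𝓞 F)ˣ →+ Additive (𝓞 H)ˣ :=
  MonoidHom.toAdditive (Units.map (RingOfIntegers.norm H : 𝓞 F →* 𝓞 H))

lemma units_ext {E : Type} [Field E] {u v : Additive (𝓞 E)ˣ}
    (h : algebraMap (𝓞 E) E (u.toMul : (𝓞 E)ˣ) = algebraMap (𝓞 E) E (v.toMul : (𝓞 E)ˣ)) :
    u = v := by
  apply Additive.toMul.injective
  apply Units.ext
  exact RingOfIntegers.ext h

lemma nU_iU (u : Additive (𝓞 H)ˣ) : nU H F (iU H F u) = finrank H F • u := by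
  apply Additive.toMul.injective
  apply Units.ext
  exact RingOfIntegers.norm_algebraMap (L := F) H ((u.toMul : (𝓞 H)ˣ) : 𝓞 H)

lemma iU_nU [FiniteDimensional H F] [IsGalois H F] (u : Additive (𝓞 F)ˣ) :
    iU H F (nU H F u) = ∑ s : F ≃ₐ[H] F, unitsHom s u := by
  apply units_ext
  have h0 : algebraMap (𝓞 F) F ((iU H F (nU H F u)).toMul : (𝓞 F)ˣ) =
    algebraMap H F (Algebra.norm H (algebraMap (𝓞 F) F (u.toMul : (𝓞 F)ˣ))) := rfl
  rw [h0, Algebra.norm_eq_prod_automorphisms, toMul_sum, Units.coe_prod, map_prod]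
  rfl

lemma unitsHom_restrictScalars (s : F ≃ₐ[H] F) :
    unitsHom (s.restrictScalars K) = unitsHom s := rfl

lemma log_iU {p : ℕ} {k : Type} [NormedField k] (L : IwasawaLog p k) (τ : F →+* k) :
    (logUnits L τ).comp (iU H F) = logUnits L (τ.comp (algebraMap H F)) := rfl

lemma res_comm [Normal K H] [Normal K F] (g : Ω ≃ₐ[K] Ω) (x : H) :
    AlgEquiv.restrictNormalHom F g (algebraMap H F x) =
      algebraMap H F (AlgEquiv.restrictNormalHom H g x) := by
  apply (algebraMap F Ω).injective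
  have h1 := AlgEquiv.restrictNormal_commutes g F (algebraMap H F x)
  have h2 := AlgEquiv.restrictNormal_commutes g H x
  have h3 : algebraMap F Ω (AlgEquiv.restrictNormalHom F g (algebraMap H F x)) =
    g (algebraMap F Ω (algebraMap H F x)) := h1
  have h4 : algebraMap H Ω (AlgEquiv.restrictNormalHom H g x) = g (algebraMap H Ω x) := h2
  rw [h3, ← IsScalarTower.algebraMap_apply, ← IsScalarTower.algebraMap_apply, h4]

lemma act_iU [Normal K H] [Normal K F] (g : Ω ≃ₐ[K] Ω) :
    (unitsHom (AlgEquiv.restrictNormalHom F g)).comp (iU H F) =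
      (iU H F).comp (unitsHom (AlgEquiv.restrictNormalHom H g)) := by
  refine AddMonoidHom.ext fun u => ?_
  exact units_ext (res_comm g _)

section main

variable [FiniteDimensional K F] [IsGalois K H] [IsGalois K F] [Normal K Ω]
  {p : ℕ} {k : Type} [NormedField k] [CharZero k] (ψ : (Ω ≃ₐ[K] Ω) →* kˣ)

include Ω ψ in
/-- The image of the norm of a `ψ`-vector. -/
lemma iN (hψ : ∀ g : Ω ≃ₐ[K] Ω, (∀ x : H, g (algebraMap H Ω x) = algebraMap H Ω x) → ψ g = 1)
    (v : k ⊗[ℤ] Additive (𝓞 F)ˣ)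
    (hv : ∀ g : Ω ≃ₐ[K] Ω, extEnd (unitsHom (AlgEquiv.restrictNormalHom F g)) v =
      ((ψ g : kˣ) : k) • v) :
    bm k (iU H F) (bm k (nU H F) v) = (finrank H F : k) • v := by
  have : FiniteDimensional H F := FiniteDimensional.right K H F
  have : IsGalois H F := IsGalois.tower_top_of_isGalois K H F
  rw [bm_comp, bm_sum (fun s : F ≃ₐ[H] F => unitsHom s) _ (fun u => iU_nU u)]
  have h1 : ∀ s : F ≃ₐ[H] F, bm k (unitsHom s) v = v := by
    intro s
    obtain ⟨g, hg⟩ := AlgEquiv.restrictNormalHom_surjective Ω (s.restrictScalars K : F ≃ₐ[K] F)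
    have h2 : ψ g = 1 := by
      apply hψ
      intro x
      have h3 : algebraMap F Ω (AlgEquiv.restrictNormalHom F g (algebraMap H F x)) =
        g (algebraMap F Ω (algebraMap H F x)) :=
        AlgEquiv.restrictNormal_commutes g F (algebraMap H F x)
      rw [hg] at h3
      have h4 : (s.restrictScalars K : F ≃ₐ[K] F) (algebraMap H F x) = algebraMap H F x :=
        s.commutes x
      rw [h4, ← IsScalarTower.algebraMap_apply] at h3
      exact h3.symm
    have h3 := hv g
    rw [h2, Units.val_one, one_smul, hg] at h3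
    exact h3
  rw [Finset.sum_congr rfl fun s _ => h1 s, Finset.sum_const, Finset.card_univ,
    ← Nat.card_eq_fintype_card, IsGalois.card_aut_eq_finrank, Nat.cast_smul_eq_nsmul]

include K in
lemma iU_inj (x : k ⊗[ℤ] Additive (𝓞 H)ˣ) (hx : bm k (iU H F) x = 0) : x = 0 := by
  have : FiniteDimensional H F := FiniteDimensional.right K H F
  have h1 : bm k (nU H F) (bm k (iU H F) x) = (finrank H F : k) • x := by
    rw [bm_comp]
    exact bm_nsmul _ _ _ fun u => nU_iU u
  rw [hx, map_zero] at h1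
  have h2 : (finrank H F : k) ≠ 0 := by
    exact_mod_cast (finrank_pos (R := H) (M := F)).ne'
  exact (smul_eq_zero.1 h1.symm).resolve_left h2

/-- Direction from `H` to `F`. -/
lemma inf_mp [IsAlgClosed Ω] (ιinf : Ω →+* ℂ) (ιp : Ω →+* k) (L : IwasawaLog p k)
    (S : Set (K →+* ℂ))
    (hψ : ∀ g : Ω ≃ₐ[K] Ω, (∀ x : H, g (algebraMap H Ω x) = algebraMap H Ω x) → ψ g = 1)
    (χ' : (H ≃ₐ[K] H) →* kˣ) (hχ : ∀ g : Ω ≃ₐ[K] Ω, ψ g = χ' (AlgEquiv.restrictNormalHom H g))
    (hinj : InjectiveOn (finrank K H) χ' unitsHom (logSigma ιinf ιp S L))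
    (v : k ⊗[ℤ] Additive (𝓞 F)ˣ)
    (hv : ∀ g : Ω ≃ₐ[K] Ω, extEnd (unitsHom (AlgEquiv.restrictNormalHom F g)) v =
      ((ψ g : kˣ) : k) • v)
    (hlog : ∀ τ ∈ (above (TSet ιinf ιp S) : Set (F →+* k)), extHom (logUnits L τ) v = 0) :
    v = 0 := by
  have : FiniteDimensional H F := FiniteDimensional.right K H F
  have : FiniteDimensional K H := FiniteDimensional.left K H F
  set x := bm k (nU H F) v with hx
  have hix : bm k (iU H F) x = (finrank H F : k) • v := iN (K := K) ψ hψ v hv
  have heig : ∀ h : H ≃ₐ[K] H, extEnd (unitsHom h) x = ((χ' h : kˣ) : k) • x := by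
    intro h
    obtain ⟨g, hg⟩ := AlgEquiv.restrictNormalHom_surjective Ω h
    rw [← sub_eq_zero]
    apply iU_inj (K := K) (F := F)
    rw [map_sub, bm_extEnd, ← hg, ← act_iU, ← extEnd_bm, hix, map_smul, map_smul, hv g, hix, hχ g,
      smul_comm, sub_self]
  have hcard : Nat.card (H ≃ₐ[K] H) = finrank K H := IsGalois.card_aut_eq_finrank K H
  have hne : (Nat.card (H ≃ₐ[K] H) : k) ≠ 0 := by
    rw [hcard]
    exact_mod_cast (finrank_pos (R := K) (M := H)).ne'
  have he := eChi_of_eig hne χ' unitsHom x heig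
  rw [hcard] at he
  have hx0 : x = 0 := by
    rw [← he]
    apply hinj
    rintro ℓ ⟨σ, hσ, rfl⟩
    rw [he]
    obtain ⟨σ', hσ'⟩ := ext_emb (F := F) σ
    have h1 : logUnits L (ιp.comp σ) = (logUnits L (ιp.comp σ')).comp (iU H F) := by
      rw [log_iU, RingHom.comp_assoc, hσ']
    rw [h1, ← extHom_bm, hix, map_smul, hlog, smul_zero]
    refine ⟨σ'.comp (algebraMap K F), ?_, rfl⟩
    have h3 : σ'.comp (algebraMap K F) = σ.comp (algebraMap K H) := by
      rw [IsScalarTower.algebraMap_eq K H F, ← RingHom.comp_assoc, hσ']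
    rw [h3]
    exact hσ
  rw [hx0, map_zero] at hix
  have h2 : (finrank H F : k) ≠ 0 := by
    exact_mod_cast (finrank_pos (R := H) (M := F)).ne'
  exact (smul_eq_zero.1 hix.symm).resolve_left h2

/-- Direction from `F` to `H`. -/
lemma inf_mpr [IsAlgClosed Ω] (ιinf : Ω →+* ℂ) (ιp : Ω →+* k) (L : IwasawaLog p k)
    (S : Set (K →+* ℂ))
    (χ' : (H ≃ₐ[K] H) →* kˣ) (hχ : ∀ g : Ω ≃ₐ[K] Ω, ψ g = χ' (AlgEquiv.restrictNormalHom H g))
    (hF : ∀ v : k ⊗[ℤ] Additive (𝓞 F)ˣ,
      (∀ g : Ω ≃ₐ[K] Ω, extEnd (unitsHom (AlgEquiv.restrictNormalHom F g)) v =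
        ((ψ g : kˣ) : k) • v) →
      (∀ τ ∈ (above (TSet ιinf ιp S) : Set (F →+* k)), extHom (logUnits L τ) v = 0) → v = 0) :
    InjectiveOn (finrank K H) χ' unitsHom (logSigma ιinf ιp S L) := by
  have : FiniteDimensional H F := FiniteDimensional.right K H F
  have : FiniteDimensional K H := FiniteDimensional.left K H F
  intro x hx
  set y := eChi (finrank K H) χ' unitsHom x with hy
  have heig : ∀ h : H ≃ₐ[K] H, extEnd (unitsHom h) y = ((χ' h : kˣ) : k) • y := fun h =>
    eChi_eig _ χ' unitsHom (fun g h => unitsHom_mul g h) x h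
  apply iU_inj (K := K) (F := F)
  apply hF
  · intro g
    rw [extEnd_bm, act_iU, ← bm_extEnd, heig, map_smul, hχ g]
  · intro τ hτ
    obtain ⟨σ₀, hσ₀, hτ₀⟩ := hτ
    obtain ⟨σ, hσ⟩ := lift_emb ιp σ₀ (τ.comp (algebraMap H F)) (by
      rw [RingHom.comp_assoc, ← IsScalarTower.algebraMap_eq]
      exact hτ₀)
    rw [extHom_bm, log_iU]
    apply hx
    refine ⟨σ, ?_, by rw [hσ]⟩
    have h1 : σ.comp (algebraMap K H) = σ₀ := by
      ext z
      apply ιp.injective
      have h2 := congrArg (fun f => f (algebraMap K H z)) hσ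
      have h3 := congrArg (fun f => f z) hτ₀
      simp only [RingHom.comp_apply] at h2 h3 ⊢
      rw [h2, ← IsScalarTower.algebraMap_apply]
      exact h3
    rw [h1]
    exact hσ₀

end main

end fields

/-- **S_INF.** -/
theorem s_inf : S_INF := by
  intro p _ K _ _ ιinf ιp Lg S F _ _ ψ hψF
  have hKF : FiniteDimensional K F := FiniteDimensional.right ℚ K F
  -- the kernel of `ψ` is closed
  have hle : F.fixingSubgroup ≤ ψ.ker := by
    intro g hg
    rw [MonoidHom.mem_ker]
    apply hψF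
    intro x hx
    exact hg ⟨x, hx⟩
  have hopen : IsOpen (ψ.ker : Set (AlgebraicClosure K ≃ₐ[K] AlgebraicClosure K)) :=
    Subgroup.isOpen_mono hle F.fixingSubgroup_isOpen
  have hclosed : IsClosed (ψ.ker : Set (AlgebraicClosure K ≃ₐ[K] AlgebraicClosure K)) :=
    Subgroup.isClosed_of_isOpen _ hopen
  set H : IntermediateField K (AlgebraicClosure K) := IntermediateField.fixedField ψ.ker with hH
  have hfix : H.fixingSubgroup = ψ.ker :=
    InfiniteGalois.fixingSubgroup_fixedField ⟨ψ.ker, hclosed⟩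
  have hHF : H ≤ F := by
    have h1 := InfiniteGalois.fixedField_fixingSubgroup F
    rw [← h1]
    exact IntermediateField.fixedField_antitone hle
  have hcut : CutsOut ψ H := by
    intro g
    rw [← MonoidHom.mem_ker, ← hfix, IntermediateField.mem_fixingSubgroup_iff]
  have huniq : ∀ H' : IntermediateField K (AlgebraicClosure K), CutsOut ψ H' → H' = H := by
    intro H' h'
    have h1 := InfiniteGalois.fixedField_fixingSubgroup H'
    rw [← h1, hH]
    congr 1
    ext g
    rw [MonoidHom.mem_ker, h' g, IntermediateField.mem_fixingSubgroup_iff]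
  have hgal : IsGalois K H := IsGalois.of_fixedField_normal_subgroup ψ.ker
  let _ : Algebra H F := (IntermediateField.inclusion hHF).toRingHom.toAlgebra
  have : IsScalarTower K H F := IsScalarTower.of_algebraMap_eq (fun x => rfl)
  have : IsScalarTower H F (AlgebraicClosure K) := IsScalarTower.of_algebraMap_eq (fun x => rfl)
  have hfinH : FiniteDimensional K H := FiniteDimensional.left K H F
  have hψH : ∀ g : AlgebraicClosure K ≃ₐ[K] AlgebraicClosure K,
      (∀ x : H, g (algebraMap H (AlgebraicClosure K) x) = algebraMap H (AlgebraicClosure K) x) →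
        ψ g = 1 := fun g hg => (hcut g).2 fun x hx => hg ⟨x, hx⟩
  constructor
  · rintro ⟨H', hfin', hcut', χ', hres, hinj⟩
    have heq := huniq H' hcut'
    clear_value H
    subst heq
    intro v hv hlog
    refine inf_mp ψ ιinf ιp Lg S hψH χ' (fun g => ?_) hinj v hv hlog
    refine hres g _ fun x => ?_
    exact (AlgEquiv.restrictNormal_commutes g H' x).symm
  · intro hF
    have hsurj : Function.Surjective (AlgEquiv.restrictNormalHom (F := K)
        (K₁ := AlgebraicClosure K) H) := AlgEquiv.restrictNormalHom_surjective _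
    have hker : (AlgEquiv.restrictNormalHom (F := K) (K₁ := AlgebraicClosure K) H).ker ≤
        ψ.ker := by
      rw [IntermediateField.restrictNormalHom_ker, hfix]
    obtain ⟨χ', hχ⟩ : ∃ χ' : (H ≃ₐ[K] H) →* ℂ_[p]ˣ,
        ∀ g, ψ g = χ' (AlgEquiv.restrictNormalHom H g) :=
      ⟨(AlgEquiv.restrictNormalHom (F := K) (K₁ := AlgebraicClosure K) H).liftOfSurjective
        hsurj ⟨ψ, hker⟩, fun g => ((AlgEquiv.restrictNormalHom (F := K)
          (K₁ := AlgebraicClosure K) H).liftOfRightInverse_comp_apply _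
          (Function.rightInverse_surjInv hsurj) ⟨ψ, hker⟩ g).symm⟩
    refine ⟨H, hfinH, hcut, χ', fun g h hgh => ?_, inf_mpr (F := F) ψ ιinf ιp Lg S χ' hχ hF⟩
    rw [hχ g]
    congr 1
    ext x
    have h1 := hgh x
    have h2 : algebraMap H (AlgebraicClosure K) (AlgEquiv.restrictNormalHom H g x) =
      g (algebraMap H (AlgebraicClosure K) x) := AlgEquiv.restrictNormal_commutes g H x
    exact h2.trans h1

end Pool.Agent.Helper16.TH
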