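import Pool.Agent.Helper38.TH.Goals4
import Pool.Agent.Helper17.M3.Q4D

/-!
# Project TH (MP_fc6b1e_nt, T100), packet G4_MTG: the assembly of `MTG4`
-/

set_option autoImplicit false

namespace Pool.Agent.Helper16.TH

open Finset Pool.Agent.Helper17.PP Pool.Agent.Helper17.PP0 Pool.Agent.Helper17.PP2
  Pool.Agent.Helper11.M3 Pool.Agent.Helper38.ND Pool.Agent.Helper38.TH
open Pool.Agent.Helper17.M3 (piv_uniq step1₄ step4₄ Gd U1W V1W MNW LGW small_le)

section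

variable {p : ℕ} {B B₀ k U Λ C : Type} [Field k] [AddCommGroup U] [Module k U]
    [AddCommGroup Λ] [Module k Λ] [AddCommGroup C] (S : Sys p B B₀ k U Λ C)

open Classical in
/-- There is at most one pivot. -/
theorem piv_sum_le (N : B → Prop) (b : Finset B) (P₀ : B) (hP₀ : Piv S N b P₀) (s : ℕ) (q : B)
    (f : B → ℝ) (hf : ∀ P₁, 0 ≤ f P₁) :
    ∑ P₁ ∈ b with (Piv S N b P₁ ∧ P₁ ≠ q ∧ s ≤ S.bl P₁), f P₁ ≤ if q ≠ P₀ then f P₀ else 0 := by
  split_ifs with hq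
  · refine (Finset.sum_le_sum_of_subset_of_nonneg (t := {P₀}) ?_
      fun _ _ _ ↦ hf _).trans (by rw [Finset.sum_singleton])
    intro P₁ hP₁
    rw [mem_filter] at hP₁
    rw [mem_singleton]
    exact piv_uniq S hP₁.2.1 hP₀
  · rw [Finset.sum_eq_zero]
    intro P₁ hP₁
    rw [mem_filter] at hP₁
    push Not at hq
    exact absurd ((piv_uniq S hP₁.2.1 hP₀).trans hq.symm) hP₁.2.2.1

open Classical in
/-- The double sum is bounded by the sum for the pivot. -/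
theorem pair_sum_le (N : B → Prop) (b : Finset B) (P₀ : B) (hP₀ : Piv S N b P₀) (s : ℕ)
    (A : B → Prop) [DecidablePred A] (f : B → B → ℝ) (hf : ∀ q P₁, 0 ≤ f q P₁) :
    ∑ q ∈ b with A q, ∑ P₁ ∈ b with (Piv S N b P₁ ∧ P₁ ≠ q ∧ s ≤ S.bl P₁), f q P₁ ≤
      ∑ q ∈ b with (A q ∧ q ≠ P₀), f q P₀ := by
  refine (Finset.sum_le_sum fun q _ ↦ piv_sum_le S N b P₀ hP₀ s q (f q) (hf q)).trans ?_
  rw [← Finset.sum_filter, Finset.filter_filter]

open Classical in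
/-- Without a pivot the double sum is zero. -/
theorem pair_sum_zero (N : B → Prop) (b : Finset B) (h : ¬ ∃ P₀, Piv S N b P₀) (s : ℕ)
    (A : B → Prop) [DecidablePred A] (f : B → B → ℝ) :
    ∑ q ∈ b with A q, ∑ P₁ ∈ b with (Piv S N b P₁ ∧ P₁ ≠ q ∧ s ≤ S.bl P₁), f q P₁ = 0 := by
  refine Finset.sum_eq_zero fun q _ ↦ Finset.sum_eq_zero fun P₁ hP₁ ↦ ?_
  rw [mem_filter] at hP₁
  exact absurd ⟨P₁, hP₁.2.1⟩ h

/-- `Bad` implies `Bad₄` if the pivots are not split. -/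
theorem bad_bad₄ [Algebra (ZMod p) k] {N : B → Prop} (hN : ∀ q, N q → ¬ S.spl q)
    {b : Finset B} (h : S.Bad b) : Bad₄ S N b := by
  obtain ⟨x, c, hs, hne⟩ := h
  refine ⟨x, c, hs, hne, fun P₁ hP₁ ↦ ?_⟩
  by_contra hc
  exact hN P₁ hP₁.isN (hs.supp P₁ hc).2

/-- The constant weight. -/
theorem wtG_one (V : B → Prop) : WtG S V (fun _ ↦ 1) :=
  ⟨fun _ ↦ zero_le_one, fun _ ↦ le_rfl, fun _ _ _ _ ↦ rfl⟩

end

section

variable {p : ℕ} {B B₀ k U Λ C : Type} [Field k] [Fintype k] [AddCommGroup U] [Module k U]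
    [AddCommGroup Λ] [Module k Λ] [AddCommGroup C] (S : Sys p B B₀ k U Λ C)

open Classical in
/-- The pointwise bound, without conditions. -/
theorem pt_c (hMNB : Q_MNB) (N : B → Prop) (s : ℕ) (A : B → Prop) [DecidablePred A]
    (b : Finset B)
    (hA : ∀ q, A q → Wv S b q) :
    ∑ q ∈ b with A q, ∑ P₁ ∈ b with (Piv S N b P₁ ∧ P₁ ≠ q ∧ s ≤ S.bl P₁),
      ((Fintype.card k : ℝ) - 1) * (1 / Fintype.card k : ℝ) ^ (ra₄ S b q P₁).card ≤
    Fintype.card k := by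
  have hk : (1 : ℝ) ≤ Fintype.card k := by exact_mod_cast Fintype.card_pos (α := k)
  have hk1 : (0 : ℝ) ≤ (Fintype.card k : ℝ) - 1 := by linarith
  by_cases h : ∃ P₀, Piv S N b P₀
  · obtain ⟨P₀, hP₀⟩ := h
    refine (pair_sum_le S N b P₀ hP₀ s A _ fun q P₁ ↦ by positivity).trans
      (le_trans ?_ (hMNB p B B₀ k U Λ C S b P₀))
    refine Finset.sum_le_sum_of_subset_of_nonneg ?_ fun _ _ _ ↦ by positivity
    intro q hq
    rw [mem_filter] at hq ⊢
    exact ⟨hq.1, hA q hq.2.1, hq.2.2⟩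
  · rw [pair_sum_zero S N b h]
    positivity

open Classical in
/-- The pointwise bound for the primes of `V`. -/
theorem pt_b (hMNB : Q_MNB) (hPTW : G4_PTW) (N V : B → Prop) (hN : ∀ q, N q → ¬ S.spl q)
    (s s' T₀ r₀ L : ℕ) (hT₀ : 1 ≤ T₀) (b : Finset B) :
    ∑ q ∈ b with (Wv S b q ∧ s' ≤ S.bl q ∧ V q),
      ∑ P₁ ∈ b with (Piv S N b P₁ ∧ P₁ ≠ q ∧ s ≤ S.bl P₁),
      ((Fintype.card k : ℝ) - 1) * (1 / Fintype.card k : ℝ) ^ (ra₄ S b q P₁).card ≤
    Fintype.card k * ((1 / Fintype.card k : ℝ) ^ r₀ + if ExX S V T₀ r₀ L b then 1 else 0) := by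
  have hk : (1 : ℝ) ≤ Fintype.card k := by exact_mod_cast Fintype.card_pos (α := k)
  have hk0 : (0 : ℝ) < Fintype.card k := by linarith
  have hk1 : (0 : ℝ) ≤ (Fintype.card k : ℝ) - 1 := by linarith
  by_cases hE : ExX S V T₀ r₀ L b
  · rw [if_pos hE]
    refine (pt_c S hMNB N s _ b fun q hq ↦ hq.1).trans ?_
    have h0 : (0 : ℝ) ≤ Fintype.card k * (1 / Fintype.card k : ℝ) ^ r₀ := by positivity
    rw [mul_add, mul_one]
    linarith
  rw [if_neg hE, add_zero]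
  by_cases h : ∃ P₀, Piv S N b P₀
  · obtain ⟨P₀, hP₀⟩ := h
    have hex : ∃ m : ℕ, L ≤ T₀ * m := ⟨L, Nat.le_mul_of_pos_left L hT₀⟩
    set m := Nat.find hex with hm
    have hmL : ∀ n : ℕ, L ≤ T₀ * n ↔ m ≤ n := by
      intro n
      constructor
      · intro h
        exact Nat.find_min' hex h
      · intro h
        exact (Nat.find_spec hex).trans (Nat.mul_le_mul_left T₀ h)
    unfold ExX at hE
    push Not at hE
    obtain ⟨hE1, hE2⟩ := hE
    refine (pair_sum_le S N b P₀ hP₀ s _ _ fun q P₁ ↦ by positivity).trans ?_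
    refine le_trans ?_ ((hPTW p B B₀ k U Λ C S m b P₀ (hN P₀ hP₀.isN)).trans ?_)
    · refine Finset.sum_le_sum_of_subset_of_nonneg ?_ fun _ _ _ ↦ by positivity
      intro q hq
      rw [mem_filter] at hq ⊢
      refine ⟨hq.1, hq.2.1.1, ?_⟩
      by_contra hcon
      exact absurd ((hmL _).2 (not_lt.1 hcon)) (not_le.2 (hE1 q hq.1 hq.2.1.2.2))
    · refine mul_le_mul_of_nonneg_left ?_ hk0.le
      refine pow_le_pow_of_le_one (by positivity) ?_ ?_
      · rw [div_le_one hk0]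
        exact hk
      · refine hE2.trans (le_of_eq ?_)
        congr 1
        refine Finset.filter_congr fun q _ ↦ ?_
        rw [hmL]
  · rw [pair_sum_zero S N b h]
    positivity

end

/-- **G4_MTG**. -/
theorem g4_mtg : G4_MTG := by
  classical
  intro hCNT hORT hLRG hMNS hUS1 hUS2 hSMB hEX0' hEX2' hEX5' hEXN' hMNB hPTW hBLK
    p _ B B₀ k U Λ Cc _ _ _ _ _ _ _ _ _ _ _ S ψ eL N g K hypG V hNV T₀ r₀ hT₀ ε hε
  have hyp : Hyp₄ S ψ eL N ⊥ g K := hypG.toHyp₄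
  have hypW : HypW S ψ g K := hyp.toHypW
  have hnspl := hypG.nspl
  obtain ⟨KL, hKL⟩ := hLRG p B B₀ k U Λ Cc S ψ eL N ⊥ g K hyp
  obtain ⟨KM, hKM⟩ := hMNS p B B₀ k U Λ Cc S ψ g K hypW
  obtain ⟨K₅, hK₅⟩ := hEX2' p B B₀ k U Λ Cc S ψ g K hypW
  have hEX0 := hEX0' p B B₀ k U Λ Cc S ψ eL N ⊥ g K hyp
  have hEX5 := hEX5' p B B₀ k U Λ Cc S ψ g K hypW
  have hEXN := hEXN' p B B₀ k U Λ Cc S ψ eL N ⊥ g K hyp
  obtain ⟨A₅, hA₅, hBL⟩ := hBLK p B B₀ k U Λ Cc S ψ eL N g K hypG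
  have hK : 1 ≤ K := hypW.one_le
  set E := 2 * K * (K + 1) with hE
  have hE1 : 1 ≤ E := by
    rw [hE]; nlinarith
  set Q : ℝ := (Fintype.card k : ℝ) with hQ
  have hQ2 : 2 ≤ Q := by
    rw [hQ]; exact_mod_cast Fintype.one_lt_card (α := k)
  set ρ : ℝ := (Fintype.card U / Fintype.card Λ : ℝ) with hρ
  have hρ0 : 0 ≤ ρ := by positivity
  set Cs : ℝ := Q * (Fintype.card U * KM) + Q * KL with hCs
  have hCs0 : 0 ≤ Cs := by positivity
  set V₀ : ℝ := 6 + Cs with hV₀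
  have hV₀0 : 0 < V₀ := by positivity
  set e : ℝ := ε / V₀ with he
  have he0 : 0 < e := by positivity
  -- the choice of `j₀`
  obtain ⟨jE, hjE⟩ := le_th_of_large E hE1
  obtain ⟨j5, hj5⟩ := hEX5 E e hE1 he0
  obtain ⟨j1, hj1⟩ := hUS1 K KL e hK he0
  obtain ⟨j2, hj2⟩ := hUS2 K KM E A₅ e hK hE1 he0
  obtain ⟨n5, hn5⟩ := exists_nat_ge (K₅ / e : ℝ)
  set j₀ := 2 + jE + j5 + j1 + j2 + n5 with hj₀
  have hj₀2 : 2 ≤ j₀ := by omega
  have hK5 : (K₅ : ℝ) / j₀ ≤ e := by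
    rw [div_le_iff₀ (by positivity)]
    rw [div_le_iff₀ he0] at hn5
    have : (n5 : ℝ) ≤ j₀ := by exact_mod_cast (by omega : n5 ≤ j₀)
    nlinarith
  have hth : ∀ j, j₀ ≤ j → j ≤ th E j := fun j hj ↦ hjE j (by omega)
  -- the choice of `X₀`
  obtain ⟨L2, hL2⟩ := hj2 j₀ (by omega)
  obtain ⟨L4, hL4⟩ := hSMB 0 A₅ j₀ hA₅
  obtain ⟨X0, hX0⟩ := hEX0 j₀ e he0
  obtain ⟨XN, hXN⟩ := hEXN e he0
  obtain ⟨XB, hXB⟩ := hBL e he0
  refine ⟨max (2 ^ (L2 + L4 + 9)) (max (max X0 XN) XB), fun X hX G hG P ↦ ?_⟩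
  have hXp : (2 : ℝ) ^ (L2 + L4 + 9) ≤ X := (le_max_left _ _).trans hX
  have hXX := (le_max_right _ _).trans hX
  have hXX1 := (le_max_left _ _).trans hXX
  have hXX0 : X0 ≤ X := (le_max_left _ _).trans hXX1
  have hXXN : XN ≤ X := (le_max_right _ _).trans hXX1
  have hXXB : XB ≤ X := (le_max_right _ _).trans hXX
  have hLX := le_lg hXp
  set L := lg X with hL
  set s := Nat.sqrt L with hs
  set s' := sl A₅ L with hs'
  have hX1 : 1 ≤ X := le_trans (one_le_pow₀ (by norm_num)) hXp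
  obtain ⟨hc1, hc2, hc3, hc4⟩ := hL4 L (by omega)
  have hgX : 1 ≤ g X := hypW.g_one X
  have hXg : 0 ≤ X * g X := by positivity
  -- the weights
  set W : Finset B → ℝ := fun b ↦ G b * Real.exp (-(S.nm b / X)) with hWdef
  set We : Finset B → ℝ := fun b ↦ Real.exp (-(S.nm b / X)) with hWedef
  have hW0 : ∀ b, 0 ≤ W b := fun b ↦ mul_nonneg (hG.nonneg b) (Real.exp_pos _).le
  have hWe0 : ∀ b, 0 ≤ We b := fun b ↦ (Real.exp_pos _).le
  have hWe : ∀ b, W b ≤ We b := fun b ↦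
    mul_le_of_le_one_left (Real.exp_pos _).le (hG.le_one b)
  have hdom : ∀ F : Finset (Finset B), ∑ b ∈ F, W b ≤ ∑ b ∈ F, We b :=
    fun F ↦ Finset.sum_le_sum fun b _ ↦ hWe b
  -- `Bad` and `Bad₄`
  have hbad : ∑ b ∈ P.powerset with (S.Fam b ∧ S.Bad b), W b ≤
      ∑ b ∈ P.powerset with (S.Fam b ∧ Bad₄ S N b), W b := by
    refine Finset.sum_le_sum_of_subset_of_nonneg ?_ fun b _ _ ↦ hW0 b
    intro b hb
    rw [mem_filter] at hb ⊢
    exact ⟨hb.1, hb.2.1, bad_bad₄ S hnspl hb.2.2⟩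
  -- the exceptional sets
  have b1 := hbad.trans (step1₄ (Λ := Λ) S hCNT W hW0 N E j₀ s hc4 P)
  have bN := (hdom _).trans (hXN X hXXN P)
  have b0 := (hdom _).trans (hX0 X hXX0 P)
  have b2 := (hdom _).trans ((hK₅ j₀ X P (by omega) hX1).trans
    (mul_le_mul_of_nonneg_right hK5 hXg))
  have b5 := (hdom _).trans (hj5 j₀ (by omega) X hX1 P)
  -- the good sets
  have b4 := step4₄ (Λ := Λ) S W hW0 N E j₀ s s' P
  -- the small blocks
  have hsm : ∑ j ∈ Ico j₀ s', U1W S W E P j ≤ Cs * e * (X * g X) := by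
    have hUe : ∀ j, U1W S W E P j ≤ U1W S We E P j := by
      intro j
      unfold U1W
      exact Finset.sum_le_sum fun b _ ↦ Finset.sum_le_sum fun q _ ↦
        mul_le_mul_of_nonneg_left (hWe b) (Nat.cast_nonneg _)
    have hm : ∀ j ∈ Ico j₀ s', MNW S We E P j ≤ KM * (((j : ℝ) + 2) ^ KM *
        (((j + 1 : ℕ) : ℝ) / (min (th E j + 1) (L - j - 1) : ℕ)) ^ (1 / (2 * K) : ℝ)) *
          (X * g X) := by
      intro j hj
      rw [mem_Ico] at hj
      have h1 := hKM E j X P (by omega) (hth j hj.1) hX1 (by omega)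
      refine (show MNW S We E P j ≤ _ from h1).trans (le_of_eq ?_)
      ring
    have hl : ∀ t : k, t ≠ 0 → ∀ j ∈ Ico j₀ s', ∀ i ∈ Ico (j + 1) (tb E j),
        ‖LGW S ψ We E P i j t‖ ≤ KL * (((j : ℝ) + 2) ^ KL * ((i : ℝ) + 1) ^ K *
          (2 : ℝ) ^ (-(min i j : ℝ) / K)) * (X * g X) := by
      intro t ht j hj i hi
      rw [mem_Ico] at hj hi
      have h1 := hKL E i j t X P (by omega) (by omega) (hth j hj.1) ht hX1
      refine le_trans (le_of_eq ?_) (h1.trans (le_of_eq ?_))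
      · unfold LGW
        congr 1
        simp only [Finset.sum_mul]
        rfl
      · ring
    refine (Finset.sum_le_sum fun j _ ↦ (hUe j).trans
      (small_le (Λ := Λ) S hORT ψ hypW.ψ_ne We hWe0 E P j)).trans ?_
    rw [Finset.sum_add_distrib, ← Finset.mul_sum, ← Finset.mul_sum]
    have h1 : ∑ j ∈ Ico j₀ s', MNW S We E P j ≤ KM * e * (X * g X) := by
      refine (Finset.sum_le_sum hm).trans ?_
      rw [← Finset.sum_mul, ← Finset.mul_sum]
      exact mul_le_mul_of_nonneg_right (mul_le_mul_of_nonneg_left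
        (hL2 L (by omega)) (Nat.cast_nonneg _)) hXg
    have h2 : ∑ j ∈ Ico j₀ s', ∑ t : k with t ≠ 0, ∑ i ∈ Ico (j + 1) (tb E j),
        ‖LGW S ψ We E P i j t‖ ≤ Q * (KL * e * (X * g X)) := by
      rw [Finset.sum_comm]
      have h3 : ∀ t ∈ (univ : Finset k).filter (fun t ↦ t ≠ 0),
          ∑ j ∈ Ico j₀ s', ∑ i ∈ Ico (j + 1) (tb E j), ‖LGW S ψ We E P i j t‖ ≤
            KL * e * (X * g X) := by
        intro t ht
        rw [mem_filter] at ht
        refine (Finset.sum_le_sum fun j hj ↦ Finset.sum_le_sum (hl t ht.2 j hj)).trans ?_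
        simp only [← Finset.mul_sum, ← Finset.sum_mul]
        have h4 := hj1 j₀ (by omega) s'
        exact mul_le_mul_of_nonneg_right
          (mul_le_mul_of_nonneg_left h4 (Nat.cast_nonneg _)) hXg
      refine (Finset.sum_le_card_nsmul _ _ _ h3).trans ?_
      rw [nsmul_eq_mul]
      refine mul_le_mul_of_nonneg_right ?_ (by positivity)
      rw [hQ]
      exact_mod_cast Finset.card_le_univ _
    calc _ ≤ Q * (Fintype.card U * (KM * e * (X * g X))) +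
          Q * (KL * e * (X * g X)) := by
          refine add_le_add (mul_le_mul_of_nonneg_left (mul_le_mul_of_nonneg_left h1
            (Nat.cast_nonneg _)) (by positivity)) h2
      _ = _ := by rw [hCs]; ring
  -- the sums on the right side
  set FG : ℝ := ∑ b ∈ P.powerset with S.Fam b, W b with hFG
  set Fe : ℝ := ∑ b ∈ P.powerset with S.Fam b, We b with hFe
  set Fx : ℝ := ∑ b ∈ P.powerset with (S.Fam b ∧ ExX S V T₀ r₀ L b), We b
    with hFx
  have hFx' : ∑ b ∈ P.powerset with S.Fam b, (if ExX S V T₀ r₀ L b then (1 : ℝ) else 0) * We b =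
      Fx := by
    rw [hFx, ← Finset.filter_filter, Finset.sum_filter (s := P.powerset.filter _)]
    refine Finset.sum_congr rfl fun b _ ↦ ?_
    split_ifs <;> simp
  -- the large blocks
  have hQ0 : (0 : ℝ) < Q := by linarith
  have hcon : ∀ F : ℝ, (1 / Q) * (ρ * (Q * F)) = ρ * F := fun F ↦ by
    field_simp
  have hlb : ∑ b ∈ P.powerset with S.Fam b,
      (∑ q ∈ b with (Wv S b q ∧ s' ≤ S.bl q ∧ V q),
        ∑ P₁ ∈ b with (Piv S N b P₁ ∧ P₁ ≠ q ∧ s ≤ S.bl P₁), (cnt₅ S b q P₁ : ℝ)) * We b ≤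
      ρ * ((1 / Q) ^ r₀ * Fe + Fx) + e * (X * g X) := by
    have h1 := hXB X hXXB (fun _ ↦ False) (fun _ ↦ 1) V (wtG_one S _) (fun _ _ h ↦ h)
      (fun _ _ h ↦ h) P
    simp only [one_mul] at h1
    refine h1.trans (add_le_add ?_ le_rfl)
    rw [← hcon ((1 / Q) ^ r₀ * Fe + Fx)]
    refine mul_le_mul_of_nonneg_left (mul_le_mul_of_nonneg_left ?_ hρ0) (by positivity)
    rw [← hFx', hFe, Finset.mul_sum, ← Finset.sum_add_distrib, Finset.mul_sum]
    refine Finset.sum_le_sum fun b _ ↦ ?_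
    have h2 := pt_b S hMNB hPTW N V hnspl s s' T₀ r₀ L hT₀ b
    refine (mul_le_mul_of_nonneg_right h2 (hWe0 b)).trans (le_of_eq ?_)
    ring
  obtain ⟨nV, hnV⟩ : ∃ nV : B → Prop, ∀ q, nV q ↔ ¬ V q := ⟨fun q ↦ ¬ V q, fun _ ↦ Iff.rfl⟩
  have hlc : ∑ b ∈ P.powerset with S.Fam b,
      (∑ q ∈ b with (Wv S b q ∧ s' ≤ S.bl q ∧ nV q),
        ∑ P₁ ∈ b with (Piv S N b P₁ ∧ P₁ ≠ q ∧ s ≤ S.bl P₁), (cnt₅ S b q P₁ : ℝ)) * W b ≤
      ρ * FG + e * (X * g X) := by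
    have h1 := hXB X hXXB V G nV hG hNV (fun q h ↦ (hnV q).1 h) P
    refine h1.trans (add_le_add ?_ le_rfl)
    rw [← hcon FG]
    refine mul_le_mul_of_nonneg_left (mul_le_mul_of_nonneg_left ?_ hρ0) (by positivity)
    rw [hFG, Finset.mul_sum]
    refine Finset.sum_le_sum fun b _ ↦ ?_
    exact mul_le_mul_of_nonneg_right (pt_c S hMNB N s _ b fun q hq ↦ hq.1) (hW0 b)
  have hV1 : V1W S W N s s' P ≤ (ρ * ((1 / Q) ^ r₀ * Fe + Fx) + e * (X * g X)) +
      (ρ * FG + e * (X * g X)) := by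
    refine le_trans (le_of_eq ?_) (add_le_add (le_trans (Finset.sum_le_sum fun b _ ↦
      mul_le_mul_of_nonneg_left (hWe b) ?_) hlb) hlc)
    · rw [← Finset.sum_add_distrib]
      unfold V1W
      refine Finset.sum_congr rfl fun b _ ↦ ?_
      rw [← add_mul]
      simp only [← Finset.sum_mul]
      congr 1
      rw [← Finset.sum_filter_add_sum_filter_not (b.filter fun q ↦ Wv S b q ∧ s' ≤ S.bl q) V,
        Finset.filter_filter, Finset.filter_filter]
      refine congrArg₂ (· + ·) (Finset.sum_congr ?_ fun _ _ ↦ rfl)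
        (Finset.sum_congr ?_ fun _ _ ↦ rfl)
      · exact Finset.filter_congr fun q _ ↦ and_assoc
      · exact Finset.filter_congr fun q _ ↦ by rw [hnV, and_assoc]
    · exact Finset.sum_nonneg fun q _ ↦ Finset.sum_nonneg fun P₁ _ ↦ Nat.cast_nonneg _
  -- conclusion for the good sets
  set Gs : ℝ := ∑ b ∈ P.powerset with (S.Fam b ∧ Gd S N E j₀ s b), W b with hGs
  have hgood : (Q - 1) * Gs ≤ ρ * FG + ρ * ((1 / Q) ^ r₀ * Fe + Fx) +
      (Cs + 2) * e * (X * g X) := by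
    have h5 : (Q - 1) * Gs ≤ _ := b4
    refine h5.trans ((add_le_add hsm hV1).trans (le_of_eq ?_))
    ring
  have hFe0 : 0 ≤ Fe := Finset.sum_nonneg fun b _ ↦ hWe0 b
  have hFx0 : 0 ≤ Fx := Finset.sum_nonneg fun b _ ↦ hWe0 b
  have hG2 : Gs ≤ ρ * (1 / (Q - 1)) * FG + ρ * (Q / (Q - 1)) * ((1 / Q) ^ r₀ * Fe + Fx) +
      (Cs + 2) * e * (X * g X) := by
    have hQ1 : 0 < Q - 1 := by linarith
    have h0 : 0 ≤ (Cs + 2) * e * (X * g X) := by positivity
    have h1 : Gs ≤ (ρ * FG + ρ * ((1 / Q) ^ r₀ * Fe + Fx) +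
        (Cs + 2) * e * (X * g X)) / (Q - 1) := by
      rw [le_div_iff₀ hQ1]; linarith
    refine h1.trans ?_
    rw [add_div, add_div]
    refine add_le_add (add_le_add (le_of_eq ?_) ?_) (div_le_self h0 (by linarith))
    · field_simp
    · have h2 : 0 ≤ (1 / Q) ^ r₀ * Fe + Fx := by positivity
      rw [mul_div_right_comm]
      refine mul_le_mul_of_nonneg_right ?_ h2
      rw [← mul_div_assoc]
      gcongr
      nlinarith
  have hVe : V₀ * e = ε := by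
    rw [he]; field_simp
  refine b1.trans ?_
  have b1' := add_le_add (add_le_add (add_le_add (add_le_add bN b0) b2) b5) hG2
  refine b1'.trans (le_of_eq ?_)
  rw [← hVe, hV₀]
  ring

end Pool.Agent.Helper16.TH
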