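import Pool.Agent.Helper63.TH.Goals
import Mathlib.Analysis.SpecialFunctions.Gamma.BohrMollerup
import Mathlib.Analysis.Real.Pi.Bounds

/-!
# MP_705522_gt, thresholds, packet PC: `log P` is concave
-/

set_option autoImplicit false

namespace Pool.Agent.Helper16.TH

open Set Real
open Pool.Agent.Helper53.PT Pool.Agent.Helper63.TH

/-- `Γ(1+θ) Γ(1-θ)` -/
noncomputable def S (θ : ℝ) : ℝ := Real.Gamma (1 + θ) * Real.Gamma (1 - θ)

theorem S_pos {θ : ℝ} (h0 : 0 ≤ θ) (h1 : θ < 1) : 0 < S θ :=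
  mul_pos (Real.Gamma_pos_of_pos (by linarith)) (Real.Gamma_pos_of_pos (by linarith))

theorem sg_eq (θ : ℝ) : sg θ = √(S θ) := rfl

theorem sg_pos {θ : ℝ} (h0 : 0 ≤ θ) (h1 : θ < 1) : 0 < sg θ := by
  rw [sg_eq]
  exact Real.sqrt_pos.2 (S_pos h0 h1)

theorem S_eq {θ : ℝ} (h0 : 0 < θ) : S θ = π * θ / Real.sin (π * θ) := by
  rw [S, add_comm 1 θ, Real.Gamma_add_one h0.ne', mul_assoc, Real.Gamma_mul_Gamma_one_sub]
  ring

theorem one_le_S {θ : ℝ} (h0 : 0 < θ) (h1 : θ < 1) : 1 ≤ S θ := by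
  rw [S_eq h0]
  have h2 : 0 < Real.sin (π * θ) :=
    Real.sin_pos_of_pos_of_lt_pi (by positivity) (by nlinarith [Real.pi_pos])
  rw [le_div_iff₀ h2, one_mul]
  exact (Real.sin_lt (by positivity)).le

theorem P_pos {θ : ℝ} (h0 : 0 ≤ θ) (h1 : θ < 1) : 0 < P θ := by
  have := sg_pos h0 h1
  have := Real.pi_pos
  unfold P
  positivity

theorem LP_eq {θ : ℝ} (h0 : 0 ≤ θ) (h1 : θ < 1) : LP θ = Real.log (π / 2) +
    (θ - 1 / 2) * Real.log 2 - (Real.log (Real.Gamma (1 + θ)) + Real.log (Real.Gamma (1 - θ))) / 2 := by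
  have hg1 : 0 < Real.Gamma (1 + θ) := Real.Gamma_pos_of_pos (by linarith)
  have hg2 : 0 < Real.Gamma (1 - θ) := Real.Gamma_pos_of_pos (by linarith)
  have hp := Real.pi_pos
  have hr : (0 : ℝ) < (2 : ℝ) ^ (θ - 1 / 2) := Real.rpow_pos_of_pos (by norm_num) _
  rw [LP, P, Real.log_div (by positivity) (sg_pos h0 h1).ne', Real.log_mul (by positivity) hr.ne',
    Real.log_rpow (by norm_num), sg, Real.log_sqrt (by positivity), Real.log_mul hg1.ne' hg2.ne']

theorem concave : ConcaveOn ℝ (Icc (1 / 4) (1 / 2)) LP := by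
  refine ⟨convex_Icc _ _, ?_⟩
  intro x hx y hy a b ha hb hab
  have hz : a • x + b • y ∈ Icc (1 / 4 : ℝ) (1 / 2) := convex_Icc _ _ hx hy ha hb hab
  simp only [smul_eq_mul] at hz ⊢
  have hc := Real.convexOn_log_Gamma
  have h1 := hc.2 (x := 1 + x) (y := 1 + y) (by simp only [mem_Ioi]; linarith [hx.1])
    (by simp only [mem_Ioi]; linarith [hy.1]) ha hb hab
  have h2 := hc.2 (x := 1 - x) (y := 1 - y) (by simp only [mem_Ioi]; linarith [hx.2])
    (by simp only [mem_Ioi]; linarith [hy.2]) ha hb hab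
  simp only [smul_eq_mul, Function.comp_apply] at h1 h2
  have e1 : a * (1 + x) + b * (1 + y) = 1 + (a * x + b * y) := by linear_combination hab
  have e2 : a * (1 - x) + b * (1 - y) = 1 - (a * x + b * y) := by linear_combination hab
  rw [e1] at h1
  rw [e2] at h2
  rw [LP_eq (by linarith [hx.1]) (by linarith [hx.2]), LP_eq (by linarith [hy.1])
    (by linarith [hy.2]), LP_eq (by linarith [hz.1]) (by linarith [hz.2])]
  have e3 : a * (Real.log (π / 2)) + b * Real.log (π / 2) = Real.log (π / 2) := by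
    rw [← add_mul, hab, one_mul]
  have e4 : a * (1 / 2 * Real.log 2) + b * (1 / 2 * Real.log 2) = 1 / 2 * Real.log 2 := by
    rw [← add_mul, hab, one_mul]
  nlinarith [h1, h2, e3, e4]

theorem cont : ContinuousOn P (Icc (1 / 4) (1 / 2)) := by
  intro θ hθ
  have hG : ∀ s : ℝ, 0 < s → ContinuousAt Real.Gamma s := fun s hs =>
    (Real.differentiableAt_Gamma fun m h => by
      have : (0 : ℝ) ≤ m := Nat.cast_nonneg m
      linarith).continuousAt
  have h1 : ContinuousAt (fun θ : ℝ => Real.Gamma (1 + θ)) θ :=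
    ContinuousAt.comp (f := fun θ : ℝ => 1 + θ) (hG _ (by linarith [hθ.1])) (by fun_prop)
  have h2 : ContinuousAt (fun θ : ℝ => Real.Gamma (1 - θ)) θ :=
    ContinuousAt.comp (f := fun θ : ℝ => 1 - θ) (hG _ (by linarith [hθ.2])) (by fun_prop)
  have h3 : ContinuousAt (fun θ : ℝ => (2 : ℝ) ^ (θ - 1 / 2)) θ :=
    ContinuousAt.rpow (by fun_prop) (by fun_prop) (Or.inl (by norm_num))
  have h4 : sg θ ≠ 0 := (sg_pos (by linarith [hθ.1]) (by linarith [hθ.2])).ne'
  have h5 : ContinuousAt sg θ := by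
    unfold sg
    exact (h1.mul h2).sqrt
  unfold P
  exact ((continuousAt_const.mul h3).div h5 h4).continuousWithinAt

theorem P_half : P (1 / 2) = √(π / 2) := by
  have hp := Real.pi_pos
  have h1 : S (1 / 2) = π / 2 := by
    rw [S_eq (by norm_num), mul_one_div, Real.sin_pi_div_two, div_one]
  rw [P, sg_eq, h1, sub_self, Real.rpow_zero, mul_one, Real.div_sqrt]

theorem P_quarter : P (1 / 4) = √(π / 2) := by
  have hp := Real.pi_pos
  have h1 : S (1 / 4) = π / 2 * (2 : ℝ) ^ (-(1 / 2) : ℝ) := by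
    rw [S_eq (by norm_num), mul_one_div, Real.sin_pi_div_four, Real.rpow_neg (by norm_num),
      ← Real.sqrt_eq_rpow]
    have h2 : √(2 : ℝ) * √2 = 2 := Real.mul_self_sqrt (by norm_num)
    have h3 : √(2 : ℝ) ≠ 0 := by positivity
    field_simp
    nlinarith
  have h4 : √(S (1 / 4)) = √(π / 2) * (2 : ℝ) ^ (-(1 / 4) : ℝ) := by
    rw [h1, Real.sqrt_mul (by positivity)]
    congr 1
    rw [Real.sqrt_eq_rpow, ← Real.rpow_mul (by norm_num)]
    norm_num
  rw [P, sg_eq, h4]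
  have h5 : ((1 : ℝ) / 4 - 1 / 2) = -(1 / 4) := by norm_num
  rw [h5]
  have h6 : (0 : ℝ) < (2 : ℝ) ^ (-(1 / 4) : ℝ) := Real.rpow_pos_of_pos (by norm_num) _
  rw [mul_div_mul_right _ _ h6.ne', Real.div_sqrt]

theorem gPC : GPC := by
  have hp := Real.pi_pos
  refine ⟨concave, cont, P_quarter, P_half, fun θ h0 h1 => ?_⟩
  have hlow : √(π / 2) ≤ P θ := by
    have h2 := concave.min_le_of_mem_Icc (x := 1 / 4) (y := 1 / 2) (z := θ) (by norm_num)
      (by norm_num) ⟨h0, h1⟩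
    rw [LP, LP, LP, P_quarter, P_half, min_self] at h2
    exact (Real.log_le_log_iff (by positivity) (P_pos (by linarith) (by linarith))).1 h2
  refine ⟨le_trans ?_ hlow, hlow, ?_⟩
  · apply Real.le_sqrt_of_sq_le
    have := Real.pi_gt_d6
    norm_num at this ⊢
    linarith
  · have h3 : 1 ≤ sg θ := by
      rw [sg_eq]
      exact Real.one_le_sqrt.2 (one_le_S (by linarith) (by linarith))
    have h4 : (2 : ℝ) ^ (θ - 1 / 2) ≤ 1 :=
      Real.rpow_le_one_of_one_le_of_nonpos (by norm_num) (by linarith)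
    have h5 : (0 : ℝ) < (2 : ℝ) ^ (θ - 1 / 2) := Real.rpow_pos_of_pos (by norm_num) _
    have h6 : P θ ≤ π / 2 := by
      rw [P, div_le_iff₀ (by linarith)]
      nlinarith [mul_nonneg (by positivity : (0 : ℝ) ≤ π / 2) (by linarith : 0 ≤ sg θ - 1)]
    have := Real.pi_lt_d6
    norm_num at this ⊢
    linarith

end Pool.Agent.Helper16.TH
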