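import Pool.Agent.Helper38.TH.GoalsA
import Pool.Agent.Helper29.PP.CSTJ
import Pool.Agent.Helper23.PP.CORT
import Pool.Agent.Helper96.PP.CPMN
import Pool.Agent.Helper83.PP.CLAB

/-!
# Project TH, packet T_STJG
-/

namespace Pool.Agent.Helper16.TH

open Finset Pool.Agent.Helper17.PP Pool.Agent.Helper38.TH Pool.Agent.Helper29.PP

open Classical in
theorem t_stjg_of (hort : C_ORT) (hpmn : C_PMN) : T_STJG := by
  intro p _ B B₀ k U Λ C _ _ _ _ _ _ _ _ _ _ S ψ hψ G I hG E A j X P hti hj hth hX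
  have key : ∀ b ∈ P.powerset.filter (fun b ↦ S.Fam b),
      ∀ q ∈ b.filter (fun q ↦ S.Wt E b q ∧ S.bl q = j ∧ I q),
      G b * (S.cnt E b q : ℝ) * Real.exp (-(S.nm b / X)) ≤
        (Fintype.card U / Fintype.card Λ : ℝ) * ((Fintype.card k : ℝ) - 1) *
          (G b * (1 / Fintype.card k : ℝ) ^ (S.rt E b q).card * Real.exp (-(S.nm b / X))) +
        ∑ D ∈ (S.rg E b q).powerset with Nat.log 2 (S.nm D) < ti A j,
          ∑ χ : AddChar Λ ℂ with (D.Nonempty ∨ χ ≠ 1),
            ‖S.part ψ E P b q D χ‖ * Real.exp (-(S.nm b / X)) +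
        ∑ i ∈ Ico (ti A j) (tb E j),
          (∑ D ∈ (S.rg E b q).powerset with Nat.log 2 (S.nm D) = i, ∑ χ : AddChar Λ ℂ,
            (G b : ℂ) * S.part ψ E P b q D χ * (Real.exp (-(S.nm b / X)) : ℂ)).re := by
    intro b hb q hq
    simp only [mem_filter, mem_powerset] at hb hq
    obtain ⟨hbP, hbF⟩ := hb
    obtain ⟨hqb, hW, hbl, hI⟩ := hq
    have h1 := hort p B B₀ k U Λ C S ψ hψ E P b q hbP hqb
    have h2 := hpmn p B B₀ k U Λ C S ψ E P b q hbP hqb (by rw [hbl]; exact hth)
    have hnm : ∀ D : Finset B, S.nm D ≠ 0 := by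
      intro D
      unfold Sys.nm
      rw [Finset.prod_ne_zero_iff]
      intro q' _
      have := S.two_le q'
      omega
    have h3 := split_sum (S.rg E b q).powerset (by simp) (fun D ↦ Nat.log 2 (S.nm D))
      (ti A j) (tb E j) (by simp [Sys.nm]; omega) (by
        intro D hD
        rw [mem_powerset] at hD
        have h4 : S.nm D < 2 ^ tb E (S.bl q) := by
          apply hW.small D
          · intro q' hq'
            have := hD hq'
            simp only [Sys.rg, mem_filter, mem_erase] at this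
            exact this.1.2
          · intro hqD
            have := hD hqD
            simp only [Sys.rg, mem_filter, mem_erase] at this
            exact this.1.1 rfl
          · intro q' hq'
            have := hD hq'
            simp only [Sys.rg, mem_filter, mem_erase] at this
            exact this.2.2.2
        rw [hbl] at h4
        exact Nat.log_lt_of_lt_pow (hnm D) h4) (1 : AddChar Λ ℂ) (S.part ψ E P b q)
    rw [← h1, h2] at h3
    set e : ℝ := Real.exp (-(S.nm b / X)) with he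
    have hepos : 0 ≤ e := (Real.exp_pos _).le
    have hG0 := (hG b).1
    have hG1 := (hG b).2
    set g : ℝ := G b with hg
    have h5 : (S.cnt E b q : ℝ) = (Fintype.card U / Fintype.card Λ : ℝ) *
        ((Fintype.card k : ℝ) - 1) * (1 / Fintype.card k : ℝ) ^ (S.rt E b q).card +
        (∑ D ∈ (S.rg E b q).powerset with Nat.log 2 (S.nm D) < ti A j,
          ∑ χ : AddChar Λ ℂ with (D.Nonempty ∨ χ ≠ 1), S.part ψ E P b q D χ).re +
        ∑ i ∈ Ico (ti A j) (tb E j), (∑ D ∈ (S.rg E b q).powerset with Nat.log 2 (S.nm D) = i,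
          ∑ χ : AddChar Λ ℂ, S.part ψ E P b q D χ).re := by
      have h6 := congrArg Complex.re h3
      rw [Complex.add_re, Complex.add_re, Complex.natCast_re] at h6
      rw [h6]
      refine congrArg₂ (· + ·) (congrArg₂ (· + ·) ?_ rfl) (Complex.re_sum _ _)
      have h7 : ((Fintype.card U / Fintype.card Λ : ℂ) * ((Fintype.card k : ℂ) - 1) *
          (1 / Fintype.card k : ℂ) ^ (S.rt E b q).card) =
          (((Fintype.card U / Fintype.card Λ : ℝ) * ((Fintype.card k : ℝ) - 1) *
          (1 / Fintype.card k : ℝ) ^ (S.rt E b q).card : ℝ) : ℂ) := by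
        push_cast
        ring
      rw [h7, Complex.ofReal_re]
    rw [h5, mul_add, mul_add, add_mul, add_mul, Finset.mul_sum, Finset.sum_mul]
    refine add_le_add (add_le_add (le_of_eq (by ring)) ?_) (le_of_eq ?_)
    · have hmono : g * (∑ D ∈ (S.rg E b q).powerset with Nat.log 2 (S.nm D) < ti A j,
          ∑ χ : AddChar Λ ℂ with (D.Nonempty ∨ χ ≠ 1), S.part ψ E P b q D χ).re ≤
          ‖∑ D ∈ (S.rg E b q).powerset with Nat.log 2 (S.nm D) < ti A j,
          ∑ χ : AddChar Λ ℂ with (D.Nonempty ∨ χ ≠ 1), S.part ψ E P b q D χ‖ := by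
        refine (mul_le_mul_of_nonneg_left (Complex.re_le_norm _) hG0).trans ?_
        exact mul_le_of_le_one_left (norm_nonneg _) hG1
      calc g * (∑ D ∈ (S.rg E b q).powerset with Nat.log 2 (S.nm D) < ti A j,
          ∑ χ : AddChar Λ ℂ with (D.Nonempty ∨ χ ≠ 1), S.part ψ E P b q D χ).re * e
          ≤ ‖∑ D ∈ (S.rg E b q).powerset with Nat.log 2 (S.nm D) < ti A j,
          ∑ χ : AddChar Λ ℂ with (D.Nonempty ∨ χ ≠ 1), S.part ψ E P b q D χ‖ * e :=
            mul_le_mul_of_nonneg_right hmono hepos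
        _ ≤ (∑ D ∈ (S.rg E b q).powerset with Nat.log 2 (S.nm D) < ti A j,
          ∑ χ : AddChar Λ ℂ with (D.Nonempty ∨ χ ≠ 1), ‖S.part ψ E P b q D χ‖) * e := by
            refine mul_le_mul_of_nonneg_right ?_ hepos
            refine (norm_sum_le _ _).trans (Finset.sum_le_sum fun D _ ↦ norm_sum_le _ _)
        _ = _ := by
            rw [Finset.sum_mul]
            exact Finset.sum_congr rfl fun D _ ↦ Finset.sum_mul _ _ _
    · refine Finset.sum_congr rfl fun i _ ↦ ?_
      have h8 : ∑ D ∈ (S.rg E b q).powerset with Nat.log 2 (S.nm D) = i, ∑ χ : AddChar Λ ℂ,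
            (g : ℂ) * S.part ψ E P b q D χ * (e : ℂ) =
          (g : ℂ) * (∑ D ∈ (S.rg E b q).powerset with Nat.log 2 (S.nm D) = i, ∑ χ : AddChar Λ ℂ,
            S.part ψ E P b q D χ) * (e : ℂ) := by
        rw [Finset.mul_sum, Finset.sum_mul]
        refine Finset.sum_congr rfl fun D _ ↦ ?_
        rw [Finset.mul_sum, Finset.sum_mul]
      rw [h8, Complex.re_mul_ofReal, Complex.re_ofReal_mul]
  refine (Finset.sum_le_sum fun b hb ↦ Finset.sum_le_sum fun q hq ↦ key b hb q hq).trans ?_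
  simp only [Finset.sum_add_distrib]
  refine add_le_add (add_le_add (le_of_eq ?_) ?_) ?_
  · rw [Finset.mul_sum]
    exact Finset.sum_congr rfl fun b _ ↦ (Finset.mul_sum _ _ _).symm
  · refine Finset.sum_le_sum fun b _ ↦ ?_
    refine Finset.sum_le_sum_of_subset_of_nonneg ?_ ?_
    · intro q hq
      rw [mem_filter] at hq ⊢
      exact ⟨hq.1, hq.2.1, hq.2.2.1⟩
    · intro q _ _
      refine Finset.sum_nonneg fun D _ ↦ Finset.sum_nonneg fun χ _ ↦ ?_
      exact mul_nonneg (norm_nonneg _) (Real.exp_pos _).le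
  · have h9 : ∑ b ∈ P.powerset with S.Fam b, ∑ q ∈ b with (S.Wt E b q ∧ S.bl q = j ∧ I q),
        ∑ i ∈ Ico (ti A j) (tb E j),
          (∑ D ∈ (S.rg E b q).powerset with Nat.log 2 (S.nm D) = i, ∑ χ : AddChar Λ ℂ,
            (G b : ℂ) * S.part ψ E P b q D χ * (Real.exp (-(S.nm b / X)) : ℂ)).re =
        ∑ i ∈ Ico (ti A j) (tb E j),
          (∑ b ∈ P.powerset with S.Fam b, ∑ q ∈ b with (S.Wt E b q ∧ S.bl q = j ∧ I q),
            ∑ D ∈ (S.rg E b q).powerset with Nat.log 2 (S.nm D) = i, ∑ χ : AddChar Λ ℂ,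
              (G b : ℂ) * S.part ψ E P b q D χ * (Real.exp (-(S.nm b / X)) : ℂ)).re := by
      exact re_swap _ _ _ _
    rw [h9]
    exact Finset.sum_le_sum fun i _ ↦ Complex.re_le_norm _

theorem t_stjg : T_STJG :=
  t_stjg_of (Pool.Agent.Helper23.PP.c_ort Pool.Agent.Helper83.PP.c_lab)
    (Pool.Agent.Helper96.PP.c_pmn Pool.Agent.Helper83.PP.c_lab)

end Pool.Agent.Helper16.TH
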